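import Pool.Agent.Helper24.FL.Grp

/-!
Centralizers in the group.
-/

open Polynomial

namespace Pool.Agent.Helper15.FL

open Pool.Agent.Helper24.FL

/-- the scalar -/
noncomputable abbrev al (p r : ℕ) (c : ZMod p) : A p r := algebraMap (ZMod p) (A p r) c

/-- The form of the elements of `E j ⊔ E k`. -/
def Form (p r : ℕ) (j k : Fin 3) (h : 𝒢 p r) : Prop :=
  ∃ (a b d d' : ZMod p) (Y : Matrix (Fin 2) (Fin 2) (A p r)),
    (∀ S s, j ∈ S → k ∈ S → (h (S, s)).val = 1) ∧
    (∀ S s, j ∈ S → k ∉ S → (h (S, s)).val = 1 + al p r b • M p r s k) ∧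
    (∀ S s, j ∉ S → k ∈ S → (h (S, s)).val = 1 + al p r a • M p r s j) ∧
    (∀ S, j ∉ S → k ∉ S → (h (S, some j)).val = Matrix.fromBlocks
      (1 + (al p r b * tt p r) • N (A p r) k) (al p r a • 1 + (al p r d * tt p r) • N (A p r) k)
      0 1) ∧
    (∀ S, j ∉ S → k ∉ S → (h (S, some k)).val = Matrix.fromBlocks
      (1 + (al p r a * tt p r) • N (A p r) j) (al p r b • 1 + (al p r d' * tt p r) • N (A p r) j)
      0 1) ∧
    (∀ S s, j ∉ S → k ∉ S → s ≠ some j → s ≠ some k → (h (S, s)).val = Matrix.fromBlocks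
      (1 + (al p r a * tt p r) • N (A p r) j + (al p r b * tt p r) • N (A p r) k +
        (al p r d * tt p r ^ 2) • (N (A p r) k * N (A p r) j) +
        (al p r d' * tt p r ^ 2) • (N (A p r) j * N (A p r) k) + (tt p r ^ 3) • Y) 0 0 1)

theorem Form.swap {p r : ℕ} {j k : Fin 3} {h : 𝒢 p r} (hf : Form p r j k h) :
    Form p r k j h := by
  obtain ⟨a, b, d, d', Y, h1, h2, h3, h4, h5, h6⟩ := hf
  refine ⟨b, a, d', d, Y, fun S s hj hk => h1 S s hk hj, fun S s hj hk => h3 S s hk hj,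
    fun S s hj hk => h2 S s hk hj, fun S hj hk => h5 S hk hj, fun S hj hk => h4 S hk hj,
    fun S s hj hk hsj hsk => ?_⟩
  rw [h6 S s hk hj hsk hsj]
  congr 2
  abel

theorem ee_mem (p r : ℕ) (j : Fin 3) (c : Multiplicative (ZMod p)) (S : Finset (Fin 3))
    (s : Option (Fin 3)) (hj : j ∈ S) : ((ee p r j c) (S, s)).val = 1 := by
  have h0 : (ee p r j c) (S, s) = 1 := by
    have h1 : (if j ∈ S then (1 : (Mat p r)ˣ)
      else unip (M p r s j) (M_sq p r s j) c.toAdd) = 1 := if_pos hj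
    exact h1
  rw [h0, Units.val_one]

theorem ee_not (p r : ℕ) (j : Fin 3) (c : Multiplicative (ZMod p)) (S : Finset (Fin 3))
    (s : Option (Fin 3)) (hj : j ∉ S) :
    ((ee p r j c) (S, s)).val = 1 + al p r c.toAdd • M p r s j := by
  have h0 : (ee p r j c) (S, s) = unip (M p r s j) (M_sq p r s j) c.toAdd := by
    have h1 : (if j ∈ S then (1 : (Mat p r)ˣ)
      else unip (M p r s j) (M_sq p r s j) c.toAdd) =
        unip (M p r s j) (M_sq p r s j) c.toAdd := if_neg hj
    exact h1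
  rw [h0]
  rfl

theorem M_some (p r : ℕ) (j : Fin 3) : M p r (some j) j = Matrix.fromBlocks 0 1 0 0 := by
  unfold M
  rw [if_pos rfl]

theorem M_ne (p r : ℕ) (s : Option (Fin 3)) (j : Fin 3) (h : s ≠ some j) :
    M p r s j = Matrix.fromBlocks (tt p r • N (A p r) j) 0 0 0 := by
  unfold M
  rw [if_neg h]

theorem ee_some (p r : ℕ) (j : Fin 3) (c : Multiplicative (ZMod p)) (S : Finset (Fin 3))
    (hj : j ∉ S) : ((ee p r j c) (S, some j)).val =
      Matrix.fromBlocks 1 (al p r c.toAdd • 1) 0 1 := by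
  rw [ee_not p r j c S _ hj, M_some, Matrix.fromBlocks_smul, ← Matrix.fromBlocks_one,
    Matrix.fromBlocks_add]
  simp

theorem ee_ne (p r : ℕ) (j : Fin 3) (c : Multiplicative (ZMod p)) (S : Finset (Fin 3))
    (s : Option (Fin 3)) (hj : j ∉ S) (hs : s ≠ some j) : ((ee p r j c) (S, s)).val =
      Matrix.fromBlocks (1 + (al p r c.toAdd * tt p r) • N (A p r) j) 0 0 1 := by
  rw [ee_not p r j c S _ hj, M_ne p r s j hs, Matrix.fromBlocks_smul, ← Matrix.fromBlocks_one,
    Matrix.fromBlocks_add]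
  simp [smul_smul]

theorem Form.step {p r : ℕ} {j k : Fin 3} (hjk : j ≠ k) {h : 𝒢 p r} (hf : Form p r j k h)
    (c : Multiplicative (ZMod p)) : Form p r j k (h * ee p r k c) := by
  obtain ⟨a, b, d, d', Y, h1, h2, h3, h4, h5, h6⟩ := hf
  refine ⟨a, b + c.toAdd, d, d' + a * c.toAdd,
    Y + al p r c.toAdd • ((al p r d • (N (A p r) k * N (A p r) j) +
      al p r d' • (N (A p r) j * N (A p r) k) + tt p r • Y) * N (A p r) k),
    fun S s hj hk => ?_, fun S s hj hk => ?_,
    fun S s hj hk => ?_, fun S hj hk => ?_, fun S hj hk => ?_,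
    fun S s hj hk hsj hsk => ?_⟩
  · rw [Pi.mul_apply, Units.val_mul, h1 S s hj hk, ee_mem p r k c S s hk, mul_one]
  · rw [Pi.mul_apply, Units.val_mul, h2 S s hj hk, ee_not p r k c S s hk, add_mul, one_mul,
      mul_add, mul_one, Matrix.smul_mul, Matrix.mul_smul, M_sq, al, al, al, map_add, add_smul]
    simp only [smul_zero, add_zero]
    abel
  · rw [Pi.mul_apply, Units.val_mul, h3 S s hj hk, ee_mem p r k c S s hk, mul_one]
  · rw [Pi.mul_apply, Units.val_mul, h4 S hj hk,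
      ee_ne p r k c S _ hk (fun h => hjk (Option.some_injective _ h)), Matrix.fromBlocks_multiply]
    simp only [Matrix.mul_zero, Matrix.zero_mul, add_zero, zero_add, Matrix.mul_one]
    congr 1
    rw [add_mul, one_mul, mul_add, mul_one, Matrix.smul_mul, Matrix.mul_smul, N_sq, al, al, al,
      map_add, add_mul, add_smul]
    simp only [smul_zero, add_zero]
    abel
  · rw [Pi.mul_apply, Units.val_mul, h5 S hj hk, ee_some p r k c S hk,
      Matrix.fromBlocks_multiply]
    simp only [Matrix.mul_zero, Matrix.zero_mul, add_zero, zero_add, Matrix.mul_one]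
    congr 1
    rw [Matrix.mul_smul, Matrix.mul_one, smul_add, smul_smul]
    simp only [al, map_add, map_mul]
    module
  · rw [Pi.mul_apply, Units.val_mul, h6 S s hj hk hsj hsk, ee_ne p r k c S _ hk hsk,
      Matrix.fromBlocks_multiply]
    simp only [Matrix.mul_zero, Matrix.zero_mul, add_zero, zero_add, Matrix.mul_one]
    congr 1
    have hN := N_sq (A p r) k
    have hN2 : N (A p r) j * N (A p r) k * N (A p r) k = 0 := by
      rw [mul_assoc, hN, mul_zero]
    simp only [al, map_add, map_mul, mul_add, add_mul, mul_one, one_mul, Matrix.smul_mul,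
      Matrix.mul_smul, hN, hN2, smul_zero, add_zero, smul_add, add_smul, smul_smul]
    module

theorem form_mem {p r : ℕ} {j k : Fin 3} (hjk : j ≠ k) {h : 𝒢 p r}
    (hh : h ∈ EE p r j ⊔ EE p r k) : Form p r j k h := by
  rw [Subgroup.sup_eq_closure] at hh
  refine Subgroup.closure_induction_right (p := fun x _ => Form p r j k x) ?_ ?_ ?_ hh
  · refine ⟨0, 0, 0, 0, 0, fun S s hj hk => rfl, fun S s hj hk => ?_,
      fun S s hj hk => ?_, fun S hj hk => ?_, fun S hj hk => ?_,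
      fun S s hj hk hsj hsk => ?_⟩
    all_goals simp [al]
  · rintro x _ y (⟨c, rfl⟩ | ⟨c, rfl⟩) hx
    · exact (hx.swap.step hjk.symm c).swap
    · exact hx.step hjk c
  · rintro x _ y (⟨c, rfl⟩ | ⟨c, rfl⟩) hx
    · rw [← map_inv]; exact (hx.swap.step hjk.symm _).swap
    · rw [← map_inv]; exact hx.step hjk _

theorem coef_zero (p r : ℕ) (hr : 3 ≤ r) (u w : ZMod p) (y : A p r)
    (h : al p r u * tt p r + al p r w * tt p r ^ 2 + tt p r ^ 3 * y = 0) : u = 0 ∧ w = 0 := by
  obtain ⟨f, rfl⟩ := AdjoinRoot.mk_surjective y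
  have h1 : AdjoinRoot.mk ((X : (ZMod p)[X]) ^ r) (C u * X + C w * X ^ 2 + X ^ 3 * f) = 0 := by
    rw [← h]
    simp only [map_add, map_mul, map_pow, AdjoinRoot.mk_C, AdjoinRoot.mk_X]
    rfl
  rw [AdjoinRoot.mk_eq_zero] at h1
  have h2 := X_pow_dvd_iff.1 ((pow_dvd_pow X hr).trans h1)
  have h3 := h2 1 (by norm_num)
  have h4 := h2 2 (by norm_num)
  rw [coeff_add, coeff_add, coeff_C_mul, coeff_C_mul, coeff_X_pow_mul', coeff_X, coeff_X_pow] at h3
  rw [coeff_add, coeff_add, coeff_C_mul, coeff_C_mul, coeff_X_pow_mul', coeff_X, coeff_X_pow] at h4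
  constructor
  · simpa using h3
  · simpa using h4

theorem N_al (p r : ℕ) (j : Fin 3) (x y : Fin 2) :
    N (A p r) j x y = al p r (N (ZMod p) j x y) := by
  fin_cases j <;> fin_cases x <;> fin_cases y <;> simp [N, al]

theorem N_mul_al (p r : ℕ) (j k : Fin 3) (x y : Fin 2) :
    (N (A p r) j * N (A p r) k) x y = al p r ((N (ZMod p) j * N (ZMod p) k) x y) := by
  rw [Matrix.mul_apply, Matrix.mul_apply, al, map_sum]
  refine Finset.sum_congr rfl fun m _ => ?_
  rw [N_al, N_al, map_mul]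

theorem coefs_zero (p : ℕ) (j k : Fin 3)
    (hjk : (j = 1 ∧ k = 2) ∨ (j = 2 ∧ k = 0) ∨ (j = 0 ∧ k = 1)) (a b d d' : ZMod p)
    (hu : ∀ x y, a * N (ZMod p) j x y + b * N (ZMod p) k x y = 0)
    (hw : ∀ x y, d * (N (ZMod p) k * N (ZMod p) j) x y +
      d' * (N (ZMod p) j * N (ZMod p) k) x y = 0) : a = 0 ∧ b = 0 ∧ d = 0 ∧ d' = 0 := by
  have u1 := hu 0 0
  have u2 := hu 0 1
  have u3 := hu 1 0
  have u4 := hu 1 1
  have w1 := hw 0 0
  have w2 := hw 0 1
  have w3 := hw 1 0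
  have w4 := hw 1 1
  rcases hjk with ⟨rfl, rfl⟩ | ⟨rfl, rfl⟩ | ⟨rfl, rfl⟩
  · simp [N, Matrix.mul_apply, Fin.sum_univ_two] at u1 u2 u3 u4 w1 w2 w3 w4
    exact ⟨by linear_combination -u3 - u1, u1, w1, w4⟩
  · simp [N, Matrix.mul_apply, Fin.sum_univ_two] at u1 u2 u3 u4 w1 w2 w3 w4
    exact ⟨u1, by linear_combination u2 - u1, w1, w4⟩
  · simp [N, Matrix.mul_apply, Fin.sum_univ_two] at u1 u2 u3 u4 w1 w2 w3 w4
    exact ⟨u2, u3, w4, w1⟩

theorem cent : St_CENT := by
  intro p _ r hr i e he hne h hh hcomm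
  obtain ⟨c, rfl⟩ := he
  have hc0 : c.toAdd ≠ 0 := fun h => hne (by
    have : c = 1 := by rw [← ofAdd_toAdd c, h]; rfl
    rw [this, map_one])
  obtain ⟨j, hj⟩ : ∃ j, j = i + 1 := ⟨_, rfl⟩
  obtain ⟨k, hk⟩ : ∃ k, k = i + 2 := ⟨_, rfl⟩
  rw [← hj, ← hk] at hh
  have hd : ∀ i : Fin 3, i + 1 ≠ i + 2 ∧ i ≠ i + 1 ∧ i ≠ i + 2 ∧
      ((i + 1 = 1 ∧ i + 2 = 2) ∨ (i + 1 = 2 ∧ i + 2 = 0) ∨ (i + 1 = 0 ∧ i + 2 = 1)) := by
    decide
  have hjk : j ≠ k := by rw [hj, hk]; exact (hd i).1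
  have hij : i ≠ j := by rw [hj]; exact (hd i).2.1
  have hik : i ≠ k := by rw [hk]; exact (hd i).2.2.1
  have hcase : (j = 1 ∧ k = 2) ∨ (j = 2 ∧ k = 0) ∨ (j = 0 ∧ k = 1) := by
    rw [hj, hk]; exact (hd i).2.2.2
  obtain ⟨a, b, d, d', Y, h1, h2, h3, h4, h5, h6⟩ := form_mem hjk hh
  have h7 := h6 ∅ (some i) (Finset.notMem_empty j) (Finset.notMem_empty k)
    (fun h => hij (Option.some_injective _ h)) (fun h => hik (Option.some_injective _ h))
  have h8 := congrArg Units.val (congrFun hcomm (∅, some i))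
  rw [Pi.mul_apply, Pi.mul_apply, Units.val_mul, Units.val_mul, h7,
    ee_some p r i c ∅ (Finset.notMem_empty i), Matrix.fromBlocks_multiply,
    Matrix.fromBlocks_multiply, Matrix.fromBlocks_inj] at h8
  have h9 := h8.2.1
  simp only [Matrix.mul_zero, add_zero, zero_add, Matrix.mul_one,
    Matrix.mul_smul] at h9
  have hu : al p r (c.toAdd)⁻¹ * al p r c.toAdd = 1 := by
    rw [al, al, ← map_mul, inv_mul_cancel₀ hc0, map_one]
  have h10 := congrArg (fun Z => al p r (c.toAdd)⁻¹ • Z) h9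
  simp only [smul_smul, hu, one_smul] at h10
  have h11 : (al p r a * tt p r) • N (A p r) j + (al p r b * tt p r) • N (A p r) k +
        (al p r d * tt p r ^ 2) • (N (A p r) k * N (A p r) j) +
        (al p r d' * tt p r ^ 2) • (N (A p r) j * N (A p r) k) + (tt p r ^ 3) • Y = 0 := by
    have h12 : (1 : Matrix (Fin 2) (Fin 2) (A p r)) + ((al p r a * tt p r) • N (A p r) j +
        (al p r b * tt p r) • N (A p r) k +
        (al p r d * tt p r ^ 2) • (N (A p r) k * N (A p r) j) +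
        (al p r d' * tt p r ^ 2) • (N (A p r) j * N (A p r) k) + (tt p r ^ 3) • Y) = 1 := by
      rw [← add_assoc, ← add_assoc, ← add_assoc, ← add_assoc]
      exact h10.symm
    exact add_eq_left.1 h12
  have h13 : ∀ x y, (a * N (ZMod p) j x y + b * N (ZMod p) k x y = 0) ∧
      (d * (N (ZMod p) k * N (ZMod p) j) x y + d' * (N (ZMod p) j * N (ZMod p) k) x y = 0) := by
    intro x y
    refine coef_zero p r hr _ _ (Y x y) ?_
    have h14 := congrFun (congrFun h11 x) y
    simp only [Matrix.add_apply, Matrix.smul_apply, smul_eq_mul, Matrix.zero_apply] at h14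
    rw [N_al, N_al, N_mul_al, N_mul_al] at h14
    rw [← h14]
    simp only [al, map_add, map_mul]
    ring
  obtain ⟨rfl, rfl, rfl, rfl⟩ := coefs_zero p j k hcase a b d d' (fun x y => (h13 x y).1)
    (fun x y => (h13 x y).2)
  have h0 : al p r 0 = 0 := map_zero _
  funext q
  obtain ⟨S, s⟩ := q
  apply Units.ext
  rw [Pi.one_apply, Units.val_one]
  by_cases hjS : j ∈ S
  · by_cases hkS : k ∈ S
    · exact h1 S s hjS hkS
    · rw [h2 S s hjS hkS, h0, zero_smul, add_zero]
  · by_cases hkS : k ∈ S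
    · rw [h3 S s hjS hkS, h0, zero_smul, add_zero]
    · by_cases hsj : s = some j
      · subst hsj
        rw [h4 S hjS hkS, h0]
        simp
      · by_cases hsk : s = some k
        · subst hsk
          rw [h5 S hjS hkS, h0]
          simp
        · rw [h6 S s hjS hkS hsj hsk, add_assoc, add_assoc, add_assoc, add_assoc,
            ← add_assoc ((al p r 0 * tt p r) • N (A p r) j),
            ← add_assoc ((al p r 0 * tt p r) • N (A p r) j + _),
            ← add_assoc ((al p r 0 * tt p r) • N (A p r) j + _ + _), h11]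
          simp

end Pool.Agent.Helper15.FL
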