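import Pool.Agent.Helper24.FL.Grp

/-!
Reduced words in the group.
-/

open Polynomial

namespace Pool.Agent.Helper15.FL

open Pool.Agent.Helper24.FL

/-- Three vectors. -/
def v (p : ℕ) : Fin 3 → Fin 2 → ZMod p := ![![1, 0], ![0, 1], ![1, 1]]

theorem N_v_self (p : ℕ) (l : Fin 3) : (N (ZMod p) l).mulVec (v p l) = 0 := by
  fin_cases l <;> (ext a; fin_cases a <;> simp [N, v, Matrix.mulVec, dotProduct, Fin.sum_univ_two])

theorem N_v_ne (p : ℕ) [Fact p.Prime] (l l' : Fin 3) (h : l' ≠ l) :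
    ∃ ε : ZMod p, ε ≠ 0 ∧ (N (ZMod p) l).mulVec (v p l') = ε • v p l := by
  fin_cases l <;> fin_cases l' <;> first
    | exact absurd rfl h
    | (refine ⟨1, one_ne_zero, ?_⟩
       ext a
       fin_cases a <;> simp [N, v, Matrix.mulVec, dotProduct, Fin.sum_univ_two]
       done)
    | (refine ⟨-1, neg_ne_zero.2 one_ne_zero, ?_⟩
       ext a
       fin_cases a <;> simp [N, v, Matrix.mulVec, dotProduct, Fin.sum_univ_two])

/-- the polynomial matrix `1 + c X N` -/
noncomputable def Q (p : ℕ) (l : Fin 3) (c : ZMod p) : Matrix (Fin 2) (Fin 2) (ZMod p)[X] :=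
  1 + (C c * X) • (N (ZMod p) l).map C

/-- the leading coefficients -/
def lead {p : ℕ} (k : ℕ) (P : Matrix (Fin 2) (Fin 2) (ZMod p)[X]) :
    Matrix (Fin 2) (Fin 2) (ZMod p) :=
  P.map fun f => f.coeff k

theorem N_map_mk (p r : ℕ) (l : Fin 3) :
    ((N (ZMod p) l).map C).map (AdjoinRoot.mk ((X : (ZMod p)[X]) ^ r)) = N (A p r) l := by
  fin_cases l <;> (ext a b; fin_cases a <;> fin_cases b <;> simp [N])

theorem ee_val (p r : ℕ) (l : Fin 3) (c : Multiplicative (ZMod p)) :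
    ((ee p r l c) (∅, none) : (Mat p r)ˣ).val =
      Matrix.fromBlocks ((Q p l c.toAdd).map (AdjoinRoot.mk ((X : (ZMod p)[X]) ^ r))) 0 0 1 := by
  have h1 : ((ee p r l c) (∅, none) : (Mat p r)ˣ) =
      unip (M p r none l) (M_sq p r none l) c.toAdd := by
    have h0 : (if l ∈ (∅ : Finset (Fin 3)) then (1 : (Mat p r)ˣ)
        else unip (M p r none l) (M_sq p r none l) c.toAdd) =
        unip (M p r none l) (M_sq p r none l) c.toAdd := if_neg (Finset.notMem_empty l)
    exact h0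
  have h2 : M p r none l = Matrix.fromBlocks (tt p r • N (A p r) l) 0 0 0 := by
    unfold M
    rw [if_neg (by simp)]
  rw [h1]
  show 1 + (algebraMap (ZMod p) (A p r) c.toAdd) • M p r none l = _
  rw [h2, Matrix.fromBlocks_smul, ← Matrix.fromBlocks_one, Matrix.fromBlocks_add]
  simp only [smul_zero, add_zero]
  congr 1
  have h3 : (Q p l c.toAdd).map (AdjoinRoot.mk ((X : (ZMod p)[X]) ^ r)) =
      1 + (AdjoinRoot.mk ((X : (ZMod p)[X]) ^ r) (C c.toAdd * X)) •
        ((N (ZMod p) l).map C).map (AdjoinRoot.mk ((X : (ZMod p)[X]) ^ r)) := by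
    unfold Q
    ext a b
    simp [Matrix.map_apply, Matrix.add_apply, Matrix.one_apply, apply_ite]
  rw [h3, N_map_mk, smul_smul]
  rfl

/-- the invariant of reduced words -/
def Inv (p r : ℕ) (k : ℕ) (l : Fin 3) (g : 𝒢 p r) : Prop :=
  1 ≤ k ∧ ∃ P : Matrix (Fin 2) (Fin 2) (ZMod p)[X],
    (g (∅, none)).val =
      Matrix.fromBlocks (P.map (AdjoinRoot.mk ((X : (ZMod p)[X]) ^ r))) 0 0 1 ∧
    (∀ i j, (P i j).natDegree ≤ k) ∧ (lead k P).mulVec (v p l) = 0 ∧
    ∀ l', l' ≠ l → (lead k P).mulVec (v p l') ≠ 0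

theorem v_ne (p : ℕ) [Fact p.Prime] (l : Fin 3) : v p l ≠ 0 := by
  intro h
  fin_cases l
  · have := congrFun h 0; simp [v] at this
  · have := congrFun h 1; simp [v] at this
  · have := congrFun h 1; simp [v] at this

theorem Q_apply (p : ℕ) (l : Fin 3) (c : ZMod p) (a b : Fin 2) :
    Q p l c a b = C ((1 : Matrix (Fin 2) (Fin 2) (ZMod p)) a b) +
      C (c * N (ZMod p) l a b) * X := by
  simp only [Q, Matrix.add_apply, Matrix.smul_apply, Matrix.map_apply, smul_eq_mul,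
    Matrix.one_apply, C_mul]
  split_ifs
  · rw [C_1]; ring
  · rw [C_0]; ring

theorem Q_deg (p : ℕ) (l : Fin 3) (c : ZMod p) (a b : Fin 2) : (Q p l c a b).natDegree ≤ 1 := by
  rw [Q_apply]
  compute_degree

theorem lead_Q (p : ℕ) (l : Fin 3) (c : ZMod p) : lead 1 (Q p l c) = c • N (ZMod p) l := by
  ext a b
  rw [lead, Matrix.map_apply, Q_apply, coeff_add, coeff_C_mul, coeff_X_one, coeff_C]
  simp

theorem lead_mul (p : ℕ) (l : Fin 3) (c : ZMod p) (k : ℕ)
    (P : Matrix (Fin 2) (Fin 2) (ZMod p)[X]) (hP : ∀ i j, (P i j).natDegree ≤ k) :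
    (∀ i j, ((P * Q p l c) i j).natDegree ≤ k + 1) ∧
      lead (k + 1) (P * Q p l c) = c • (lead k P * N (ZMod p) l) := by
  constructor
  · intro i j
    rw [Matrix.mul_apply]
    refine (natDegree_sum_le_of_forall_le _ _ fun m _ => ?_)
    exact natDegree_mul_le.trans (Nat.add_le_add (hP _ _) (Q_deg _ _ _ _ _))
  · ext i j
    rw [lead, Matrix.map_apply, Matrix.mul_apply, finsetSum_coeff, Matrix.smul_apply,
      Matrix.mul_apply, smul_eq_mul, Finset.mul_sum]
    refine Finset.sum_congr rfl fun m _ => ?_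
    rw [Q_apply, mul_add, coeff_add, mul_comm (P i m), coeff_C_mul,
      coeff_eq_zero_of_natDegree_lt (Nat.lt_succ_of_le (hP i m)), mul_zero, zero_add,
      ← mul_assoc, coeff_mul_X, mul_comm (P i m), coeff_C_mul, lead, Matrix.map_apply]
    ring

theorem inv_one (p : ℕ) [Fact p.Prime] (r : ℕ) (l : Fin 3) (c : Multiplicative (ZMod p))
    (hc : c ≠ 1) : Inv p r 1 l (ee p r l c) := by
  have hc0 : c.toAdd ≠ 0 := fun h => hc (by rw [← ofAdd_toAdd c, h]; rfl)
  refine ⟨le_refl _, Q p l c.toAdd, ee_val p r l c, Q_deg p l _, ?_, fun l' hl' => ?_⟩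
  · rw [lead_Q, Matrix.smul_mulVec, N_v_self, smul_zero]
  · obtain ⟨ε, hε, h⟩ := N_v_ne p l l' hl'
    rw [lead_Q, Matrix.smul_mulVec, h, smul_smul]
    exact smul_ne_zero (mul_ne_zero hc0 hε) (v_ne p l)

theorem inv_mul (p : ℕ) [Fact p.Prime] (r k : ℕ) (l l' : Fin 3) (g : 𝒢 p r)
    (h : Inv p r k l g) (hl : l' ≠ l) (c : Multiplicative (ZMod p))
    (hc : c ≠ 1) : Inv p r (k + 1) l' (g * ee p r l' c) := by
  have hc0 : c.toAdd ≠ 0 := fun h => hc (by rw [← ofAdd_toAdd c, h]; rfl)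
  obtain ⟨h1, P, h2, h3, h4, h5⟩ := h
  obtain ⟨h6, h7⟩ := lead_mul p l' c.toAdd k P h3
  refine ⟨by omega, P * Q p l' c.toAdd, ?_, h6, ?_, fun l'' hl'' => ?_⟩
  · rw [Pi.mul_apply, Units.val_mul, h2, ee_val, Matrix.fromBlocks_multiply]
    simp only [Matrix.mul_zero, Matrix.zero_mul, add_zero, zero_add, Matrix.mul_one]
    rw [← RingHom.mapMatrix_apply, ← RingHom.mapMatrix_apply, ← RingHom.mapMatrix_apply, map_mul]
  · rw [h7, Matrix.smul_mulVec, ← Matrix.mulVec_mulVec, N_v_self, Matrix.mulVec_zero, smul_zero]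
  · obtain ⟨ε, hε, h⟩ := N_v_ne p l' l'' hl''
    rw [h7, Matrix.smul_mulVec, ← Matrix.mulVec_mulVec, h, Matrix.mulVec_smul, smul_smul]
    exact smul_ne_zero (mul_ne_zero hc0 hε) (h5 l' hl)

theorem inv_red (p : ℕ) [Fact p.Prime] (r k : ℕ) (l : Fin 3) (g : 𝒢 p r)
    (h : Red (EE p r) k l g) : Inv p r k l g := by
  induction h with
  | one l e he h1 =>
    obtain ⟨c, rfl⟩ := he
    exact inv_one p r l c (fun h => h1 (by rw [h, map_one]))
  | mul k l g l' e hg hl he h1 ih =>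
    obtain ⟨c, rfl⟩ := he
    exact inv_mul p r k l l' g ih hl c (fun h => h1 (by rw [h, map_one]))

theorem P_unique (p : ℕ) [Fact p.Prime] (R : ℕ) (P P' : Matrix (Fin 2) (Fin 2) (ZMod p)[X])
    (hP : ∀ i j, (P i j).natDegree ≤ R) (hP' : ∀ i j, (P' i j).natDegree ≤ R)
    (h : P.map (AdjoinRoot.mk ((X : (ZMod p)[X]) ^ (R + 1))) =
      P'.map (AdjoinRoot.mk ((X : (ZMod p)[X]) ^ (R + 1)))) : P = P' := by
  ext1 i j
  have h1 := congrFun (congrFun h i) j
  rw [Matrix.map_apply, Matrix.map_apply, AdjoinRoot.mk_eq_mk] at h1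
  have h2 : (P i j - P' i j).natDegree < ((X : (ZMod p)[X]) ^ (R + 1)).natDegree := by
    rw [natDegree_X_pow]
    exact Nat.lt_succ_of_le ((natDegree_sub_le _ _).trans (max_le (hP i j) (hP' i j)))
  exact sub_eq_zero.1 (eq_zero_of_dvd_of_natDegree_lt h1 h2)

theorem lead_zero (p : ℕ) (k : ℕ) (P : Matrix (Fin 2) (Fin 2) (ZMod p)[X])
    (hP : ∀ i j, (P i j).natDegree < k) : lead k P = 0 := by
  ext i j
  rw [lead, Matrix.map_apply, coeff_eq_zero_of_natDegree_lt (hP i j), Matrix.zero_apply]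

theorem exists_ne (l : Fin 3) : ∃ l' : Fin 3, l' ≠ l := by
  fin_cases l
  · exact ⟨1, by decide⟩
  · exact ⟨0, by decide⟩
  · exact ⟨0, by decide⟩

theorem red : St_RED := by
  intro p _ R
  constructor
  · intro k l g hk hg h1
    obtain ⟨h2, P, h3, h4, -, h5⟩ := inv_red p (R + 1) k l g hg
    subst h1
    have h6 : P.map (AdjoinRoot.mk ((X : (ZMod p)[X]) ^ (R + 1))) =
        (1 : Matrix (Fin 2) (Fin 2) (ZMod p)[X]).map
          (AdjoinRoot.mk ((X : (ZMod p)[X]) ^ (R + 1))) := by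
      have h7 : (1 : Mat p (R + 1)) =
          Matrix.fromBlocks (P.map (AdjoinRoot.mk ((X : (ZMod p)[X]) ^ (R + 1)))) 0 0 1 := h3
      rw [← Matrix.fromBlocks_one, Matrix.fromBlocks_inj] at h7
      rw [← h7.1, ← RingHom.mapMatrix_apply, map_one]
    have h8 : P = 1 := by
      refine P_unique p R P 1 (fun i j => (h4 i j).trans hk) (fun i j => ?_) h6
      rw [Matrix.one_apply]
      split_ifs <;> simp
    obtain ⟨l', hl'⟩ := exists_ne l
    apply h5 l' hl'
    rw [lead_zero, Matrix.zero_mulVec]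
    intro i j
    rw [h8, Matrix.one_apply]
    split_ifs
    · rw [natDegree_one]; omega
    · rw [natDegree_zero]; omega
  · have key : ∀ k k' l l' g, k ≤ R → k' ≤ R → Inv p (R + 1) k l g → Inv p (R + 1) k' l' g →
        k < k' → False := by
      intro k k' l l' g hk hk' hg hg' hlt
      obtain ⟨h2, P, h3, h4, -, h5⟩ := hg
      obtain ⟨h2', P', h3', h4', -, h5'⟩ := hg'
      rw [h3, Matrix.fromBlocks_inj] at h3'
      have h8 : P = P' := P_unique p R P P' (fun i j => (h4 i j).trans hk)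
        (fun i j => (h4' i j).trans hk') h3'.1
      obtain ⟨m, hm⟩ := exists_ne l'
      apply h5' m hm
      rw [lead_zero, Matrix.zero_mulVec]
      intro i j
      rw [← h8]
      exact lt_of_le_of_lt (h4 i j) hlt
    intro k k' l l' g hk hk' hg hg'
    have hg := inv_red p (R + 1) k l g hg
    have hg' := inv_red p (R + 1) k' l' g hg'
    have hkk : k = k' := by
      rcases lt_trichotomy k k' with h | h | h
      · exact (key k k' l l' g hk hk' hg hg' h).elim
      · exact h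
      · exact (key k' k l' l g hk' hk hg' hg h).elim
    refine ⟨hkk, ?_⟩
    subst hkk
    by_contra hll
    obtain ⟨h2, P, h3, h4, h5, -⟩ := hg
    obtain ⟨h2', P', h3', h4', -, h5'⟩ := hg'
    rw [h3, Matrix.fromBlocks_inj] at h3'
    have h8 : P = P' := P_unique p R P P' (fun i j => (h4 i j).trans hk)
      (fun i j => (h4' i j).trans hk') h3'.1
    apply h5' l hll
    rw [← h8]
    exact h5

end Pool.Agent.Helper15.FL
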